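import Mathlib

set_option autoImplicit false

/-!
Traces of powers of banded Toeplitz-Hessenberg substochastic matrices: a negative answer.
-/

namespace Pool.Agent.Results.MP_e73184_al.TraceCounterexample

open Matrix Finset

/-- Admissible matrices: nonnegative entries; all column and row sums at most one; above the
diagonal only the entries at distance one may be nonzero; below the diagonal only the entries at
distance at most `k` may be nonzero; the entries at distance `l ≤ k` below (or on) the diagonal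
are all equal to a number `c l`. -/
def Admissible (n k : ℕ) (A : Matrix (Fin n) (Fin n) ℝ) : Prop :=
  (∀ i j, 0 ≤ A i j) ∧ (∀ j, ∑ i, A i j ≤ 1) ∧ (∀ i, ∑ j, A i j ≤ 1) ∧
  (∀ i j : Fin n, (i : ℕ) + 2 ≤ j → A i j = 0) ∧
  (∀ i j : Fin n, (j : ℕ) + k < i → A i j = 0) ∧
  ∃ c : ℕ → ℝ, ∀ i j : Fin n, (j : ℕ) ≤ i → (i : ℕ) ≤ j + k → A i j = c ((i : ℕ) - j)

/-- the cyclic permutation matrix -/
def cyc (k : ℕ) : Matrix (Fin (k + 1)) (Fin (k + 1)) ℝ :=
  Matrix.of fun i j => if j = i + 1 then 1 else 0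

theorem cyc_apply (k : ℕ) (i j : Fin (k + 1)) : cyc k i j = if j = i + 1 then 1 else 0 := rfl

theorem ofNat_succ (k l : ℕ) : Fin.ofNat (k + 1) (l + 1) = Fin.ofNat (k + 1) l + 1 := by
  apply Fin.ext
  rw [Fin.val_add, Fin.val_ofNat, Fin.val_ofNat, Fin.coe_ofNat_eq_mod, ← Nat.add_mod]

theorem ofNat_zero (k : ℕ) : Fin.ofNat (k + 1) 0 = 0 := rfl

theorem cyc_pow (k l : ℕ) (i j : Fin (k + 1)) :
    (cyc k ^ l) i j = if j = i + Fin.ofNat (k + 1) l then 1 else 0 := by
  induction l generalizing i j with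
  | zero =>
    rw [pow_zero, Matrix.one_apply, ofNat_zero, add_zero]
    by_cases h : i = j
    · subst h; simp
    · rw [if_neg h, if_neg (Ne.symm h)]
  | succ l ih =>
    rw [pow_succ, Matrix.mul_apply]
    simp only [ih, cyc_apply]
    rw [Finset.sum_eq_single (i + Fin.ofNat (k + 1) l)]
    · rw [if_pos rfl, one_mul, ofNat_succ, add_assoc]
    · intro b _ hb
      rw [if_neg hb, zero_mul]
    · intro h
      exact absurd (Finset.mem_univ _) h

theorem trace_cyc_pow (k l : ℕ) :
    (cyc k ^ l).trace = if (k + 1) ∣ l then (k + 1 : ℝ) else 0 := by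
  rw [Matrix.trace]
  have h : ∀ i : Fin (k + 1), (cyc k ^ l).diag i = if (k + 1) ∣ l then 1 else 0 := by
    intro i
    rw [Matrix.diag_apply, cyc_pow]
    have : (i = i + Fin.ofNat (k + 1) l) ↔ (k + 1) ∣ l := by
      rw [left_eq_add, Fin.ext_iff, Fin.val_ofNat, Fin.val_zero, Nat.dvd_iff_mod_eq_zero]
    simp only [this]
  simp only [h]
  rw [Finset.sum_const, Finset.card_univ, Fintype.card_fin, nsmul_eq_mul]
  split_ifs <;> push_cast <;> ring

/-- the trace of the powers of `c + v P` -/
theorem trace_pow (k l : ℕ) (c v : ℝ) :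
    ((c • (1 : Matrix (Fin (k + 1)) (Fin (k + 1)) ℝ) + v • cyc k) ^ l).trace =
      ∑ m ∈ range (l + 1), c ^ (l - m) * v ^ m * (l.choose m) *
        (if (k + 1) ∣ m then (k + 1 : ℝ) else 0) := by
  have hcomm : Commute (v • cyc k) (c • (1 : Matrix (Fin (k + 1)) (Fin (k + 1)) ℝ)) :=
    ((Commute.one_right _).smul_right c)
  rw [add_comm (c • (1 : Matrix (Fin (k + 1)) (Fin (k + 1)) ℝ)) (v • cyc k), hcomm.add_pow,
    Matrix.trace_sum]
  refine Finset.sum_congr rfl fun m _ => ?_
  have ht := trace_cyc_pow k m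
  rw [smul_pow, smul_pow, one_pow, ← ht]
  have : (v ^ m • cyc k ^ m * c ^ (l - m) • (1 : Matrix (Fin (k + 1)) (Fin (k + 1)) ℝ) *
      ((l.choose m : ℕ) : Matrix (Fin (k + 1)) (Fin (k + 1)) ℝ)) =
      (c ^ (l - m) * v ^ m * (l.choose m)) • cyc k ^ m := by
    rw [← nsmul_one (l.choose m), Matrix.mul_smul, Matrix.mul_smul, Matrix.mul_one, Matrix.mul_one,
      smul_smul, ← Nat.cast_smul_eq_nsmul ℝ, smul_smul]
    congr 1
    ring
  rw [this, Matrix.trace_smul, smul_eq_mul]

theorem trace_pow_large (k l : ℕ) (h1 : k + 1 ≤ l) (h2 : l < 2 * (k + 1)) (c v : ℝ) :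
    ((c • (1 : Matrix (Fin (k + 1)) (Fin (k + 1)) ℝ) + v • cyc k) ^ l).trace =
      (k + 1) * c ^ l + (k + 1) * (l.choose (k + 1)) * c ^ (l - (k + 1)) * v ^ (k + 1) := by
  rw [trace_pow, ← Finset.sum_subset (s₁ := ({0, k + 1} : Finset ℕ))]
  · rw [Finset.sum_pair (by omega)]
    simp only [Nat.sub_zero, pow_zero, mul_one, Nat.choose_zero_right, Nat.cast_one,
      dvd_zero, if_true, dvd_refl]
    ring
  · intro x hx
    rw [Finset.mem_insert, Finset.mem_singleton] at hx
    rw [Finset.mem_range]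
    omega
  · intro x hx hx'
    rw [Finset.mem_range] at hx
    rw [Finset.mem_insert, Finset.mem_singleton, not_or] at hx'
    rw [if_neg, mul_zero]
    rintro ⟨q, hq⟩
    have hq2 : q < 2 := by
      by_contra h
      have : (k + 1) * 2 ≤ (k + 1) * q := Nat.mul_le_mul_left _ (by omega)
      omega
    interval_cases q
    · exact hx'.1 (by omega)
    · exact hx'.2 (by omega)

theorem bound (n : ℕ) (hn : 3 ≤ n) : (1 / n : ℝ) - (1 / n) ^ n ≤ (1 - 1 / n) ^ n := by
  have hn0 : (0 : ℝ) < n := by exact_mod_cast (by omega : 0 < n)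
  rcases Nat.eq_or_lt_of_le hn with h | h
  · subst h
    norm_num
  · obtain ⟨m, rfl⟩ : ∃ m, n = m + 1 := ⟨n - 1, by omega⟩
    have hm0 : (0 : ℝ) < m := by exact_mod_cast (by omega : 0 < m)
    have h1 : (1 + 1 / (m : ℝ)) ^ m ≤ 3 := by
      have h2 : (1 + 1 / (m : ℝ)) ≤ Real.exp (1 / m) := by
        have := Real.add_one_le_exp (1 / (m : ℝ))
        linarith
      calc (1 + 1 / (m : ℝ)) ^ m ≤ Real.exp (1 / m) ^ m :=
            pow_le_pow_left₀ (by positivity) h2 m
        _ = Real.exp 1 := by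
            rw [← Real.exp_nat_mul]
            congr 1
            field_simp
        _ ≤ 3 := by linarith [Real.exp_one_lt_d9]
    have h3 : (1 - 1 / ((m + 1 : ℕ) : ℝ)) = m / (m + 1) := by
      push_cast
      field_simp
      ring
    have h4 : (m / (m + 1) : ℝ) ^ m * (1 + 1 / (m : ℝ)) ^ m = 1 := by
      rw [← mul_pow]
      have : (m / (m + 1) : ℝ) * (1 + 1 / m) = 1 := by field_simp
      rw [this, one_pow]
    have h5 : (1 / 3 : ℝ) ≤ (m / (m + 1) : ℝ) ^ m := by
      have h6 : 0 ≤ (m / (m + 1) : ℝ) ^ m := by positivity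
      nlinarith
    have h7 : (1 / ((m + 1 : ℕ) : ℝ)) ≤ (m / (m + 1) : ℝ) ^ (m + 1) := by
      rw [pow_succ]
      have h8 : (3 : ℝ) ≤ m := by exact_mod_cast (by omega : 3 ≤ m)
      calc (1 / ((m + 1 : ℕ) : ℝ)) = (1 / 3) * (3 / (m + 1)) := by push_cast; field_simp
        _ ≤ (1 / 3) * (m / (m + 1)) := by gcongr
        _ ≤ (m / (m + 1) : ℝ) ^ m * (m / (m + 1)) := by gcongr
    rw [h3]
    have h9 : (0 : ℝ) ≤ (1 / ((m + 1 : ℕ) : ℝ)) ^ (m + 1) := by positivity
    linarith

/-- For every `k ≥ 2` there is an admissible matrix `A` of size `k + 1` with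
`Tr A ^ l ≤ 1` for `1 ≤ l ≤ k + 1`, but `Tr A ^ (k + 2) > 1`. -/
theorem result (k : ℕ) (hk : 2 ≤ k) :
    ∃ A : Matrix (Fin (k + 1)) (Fin (k + 1)) ℝ, Admissible (k + 1) k A ∧
      (∀ l, 1 ≤ l → l ≤ k + 1 → (A ^ l).trace ≤ 1) ∧ 1 < (A ^ (k + 2)).trace := by
  set n : ℕ := k + 1 with hn
  have hn3 : 3 ≤ n := by omega
  have hn0 : (0 : ℝ) < n := by exact_mod_cast (by omega : 0 < n)
  have hn1 : (1 : ℝ) ≤ n := by exact_mod_cast (by omega : 1 ≤ n)
  have hn2 : (3 : ℝ) ≤ n := by exact_mod_cast hn3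
  set c : ℝ := 1 / n with hc
  have hc0 : 0 < c := by positivity
  have hc1 : c ≤ 1 := by rw [hc, div_le_one hn0]; exact hn1
  have hnc : n * c = 1 := by rw [hc]; field_simp
  have hnk : (n : ℝ) = k + 1 := by rw [hn]; push_cast; ring
  have hcn : c ^ n < c := by
    have : c ^ n = c * c ^ (n - 1) := by
      rw [← pow_succ', Nat.sub_add_cancel (by omega)]
    rw [this]
    have h1 : c ^ (n - 1) < 1 := pow_lt_one₀ hc0.le (by
      rw [hc, div_lt_one hn0]; linarith) (by omega)
    nlinarith
  set v : ℝ := (c - c ^ n) ^ ((n : ℝ)⁻¹) with hv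
  have hv0 : 0 ≤ v := Real.rpow_nonneg (by linarith) _
  have hvn : v ^ n = c - c ^ n := by
    rw [hv]
    exact Real.rpow_inv_natCast_pow (by linarith) (by omega)
  have hv1 : v ≤ 1 - c := by
    apply le_of_pow_le_pow_left₀ (n := n) (by omega) (by linarith)
    rw [hvn]
    exact bound n hn3
  have hcv : c + v ≤ 1 := by linarith
  have htr := trace_pow k
  -- the traces of the first powers
  have hsmall : ∀ l, l < n → ((c • (1 : Matrix (Fin (k + 1)) (Fin (k + 1)) ℝ) +
      v • cyc k) ^ l).trace = n * c ^ l := by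
    intro l hl
    rw [htr, Finset.sum_range_succ', Finset.sum_eq_zero, zero_add]
    · simp only [Nat.sub_zero, pow_zero, mul_one, Nat.choose_zero_right, Nat.cast_one,
        dvd_zero, if_true]
      rw [hn]; push_cast; ring
    · intro m hm
      rw [Finset.mem_range] at hm
      rw [if_neg (fun h => by have := Nat.le_of_dvd (by omega) h; omega), mul_zero]
  have hn' : ((c • (1 : Matrix (Fin (k + 1)) (Fin (k + 1)) ℝ) +
      v • cyc k) ^ n).trace = n * c ^ n + n * v ^ n := by
    rw [trace_pow_large k n (by omega) (by omega)]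
    rw [← hn, Nat.choose_self, Nat.sub_self, ← hnk]
    push_cast
    ring
  have hn'' : ((c • (1 : Matrix (Fin (k + 1)) (Fin (k + 1)) ℝ) +
      v • cyc k) ^ (n + 1)).trace = n * c ^ (n + 1) + n * (n + 1) * c * v ^ n := by
    rw [trace_pow_large k (n + 1) (by omega) (by omega)]
    rw [← hn, Nat.choose_succ_self_right, Nat.add_sub_cancel_left, ← hnk]
    push_cast
    ring
  have hA : ∀ i j : Fin (k + 1), (c • (1 : Matrix (Fin (k + 1)) (Fin (k + 1)) ℝ) +
      v • cyc k) i j = c * (if i = j then 1 else 0) + v * (if j = i + 1 then 1 else 0) := by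
    intro i j
    rw [Matrix.add_apply, Matrix.smul_apply, Matrix.smul_apply, Matrix.one_apply, cyc_apply,
      smul_eq_mul, smul_eq_mul]
  have hval : ∀ i : Fin (k + 1), ((i + 1 : Fin (k + 1)) : ℕ) = ((i : ℕ) + 1) % (k + 1) := by
    intro i
    rw [Fin.val_add, Fin.coe_ofNat_eq_mod, Nat.add_mod_mod]
  refine ⟨c • (1 : Matrix (Fin (k + 1)) (Fin (k + 1)) ℝ) + v • cyc k, ?_, ?_, ?_⟩
  · refine ⟨?_, ?_, ?_, ?_, ?_, ?_⟩
    · intro i j
      rw [hA]
      split_ifs <;> simp <;> positivity
    · intro j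
      simp only [hA]
      rw [Finset.sum_add_distrib, ← Finset.mul_sum, ← Finset.mul_sum, Finset.sum_ite_eq',
        if_pos (Finset.mem_univ _)]
      have : ∑ i : Fin (k + 1), (if j = i + 1 then (1 : ℝ) else 0) = 1 := by
        rw [Finset.sum_eq_single (j - 1)]
        · rw [if_pos (by rw [sub_add_cancel])]
        · intro b _ hb
          rw [if_neg]
          rintro rfl
          exact hb (by rw [add_sub_cancel_right])
        · intro h
          exact absurd (Finset.mem_univ _) h
      rw [this]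
      linarith
    · intro i
      simp only [hA]
      rw [Finset.sum_add_distrib, ← Finset.mul_sum, ← Finset.mul_sum, Finset.sum_ite_eq,
        Finset.sum_ite_eq', if_pos (Finset.mem_univ _), if_pos (Finset.mem_univ _)]
      linarith
    · intro i j hij
      rw [hA, if_neg (by rintro rfl; omega), if_neg, mul_zero, mul_zero, add_zero]
      intro h
      have h1 := congrArg Fin.val h
      rw [hval, Nat.mod_eq_of_lt (by omega)] at h1
      omega
    · intro i j hij
      have := i.2
      omega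
    · refine ⟨fun l => if l = 0 then c else if l = k then v else 0, fun i j hij hij' => ?_⟩
      rw [hA]
      have hi := i.2
      rcases eq_or_ne i j with rfl | hne
      · rw [Nat.sub_self, if_pos rfl, if_neg, mul_one, mul_zero, add_zero]
        · rfl
        · intro h
          have h1 := congrArg Fin.val h
          rw [hval] at h1
          rcases Nat.lt_or_ge ((i : ℕ) + 1) (k + 1) with h2 | h2
          · rw [Nat.mod_eq_of_lt h2] at h1
            omega
          · have h3 : (i : ℕ) + 1 = k + 1 := by omega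
            rw [h3, Nat.mod_self] at h1
            omega
      · have hne' : (i : ℕ) ≠ j := fun h => hne (Fin.ext h)
        rw [if_neg hne, mul_zero, zero_add]
        have h0 : (i : ℕ) - j ≠ 0 := by omega
        simp only [h0, if_false]
        have h4 : (j = i + 1) ↔ ((i : ℕ) - j = k) := by
          rw [Fin.ext_iff, hval]
          rcases Nat.lt_or_ge ((i : ℕ) + 1) (k + 1) with h2 | h2
          · rw [Nat.mod_eq_of_lt h2]
            omega
          · have h3 : (i : ℕ) + 1 = k + 1 := by omega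
            rw [h3, Nat.mod_self]
            omega
        simp only [h4]
        split_ifs <;> simp
  · intro l hl1 hl2
    rcases Nat.lt_or_ge l n with h | h
    · rw [hsmall l h]
      obtain ⟨j, rfl⟩ : ∃ j, l = j + 1 := ⟨l - 1, by omega⟩
      rw [pow_succ', ← mul_assoc, hnc, one_mul]
      exact pow_le_one₀ hc0.le hc1
    · obtain rfl : l = n := by omega
      rw [hn', hvn]
      linarith
  · rw [show k + 2 = n + 1 by omega, hn'', hvn, pow_succ]
    have h1 : (n : ℝ) * (c ^ n * c) = c ^ n := by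
      rw [mul_comm (c ^ n) c, ← mul_assoc, hnc, one_mul]
    have h2 : (n : ℝ) * (n + 1) * c * (c - c ^ n) = (n + 1) * (c - c ^ n) := by
      have : (n : ℝ) * (n + 1) * c = (n * c) * (n + 1) := by ring
      rw [this, hnc, one_mul]
    rw [h1, h2]
    have h3 : (n + 1) * (c - c ^ n) + c ^ n = 1 + c - n * c ^ n := by
      have : (n + 1) * (c - c ^ n) + c ^ n = n * c + c - n * c ^ n := by ring
      rw [this, hnc]
    have h4 : n * c ^ n < c := by
      have : c ^ n = c * c * c ^ (n - 2) := by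
        rw [mul_assoc, ← pow_succ', ← pow_succ']
        congr 1
        omega
      rw [this]
      have h5 : c ^ (n - 2) < 1 := pow_lt_one₀ hc0.le (by
        rw [hc, div_lt_one hn0]; linarith) (by omega)
      have h6 : n * (c * c * c ^ (n - 2)) = (n * c) * (c * c ^ (n - 2)) := by ring
      rw [h6, hnc, one_mul]
      nlinarith
    linarith

end Pool.Agent.Results.MP_e73184_al.TraceCounterexample
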